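import Pool.Agent.Q12.MI2.Stm2

/-! Project MI2 (helper12), job XM: multiplication rules. -/

set_option autoImplicit false

namespace Q251.MI2

open Q12.MI2 Finset Q21.MI

universe u v w

section bil

variable {ι κ R : Type*} [Fintype ι] [CommRing R] (b : ι → ι → κ → ℤ)

theorem bil_add_left (x x' y : ι → R) : bil b (x + x') y = bil b x y + bil b x' y := by
  funext k
  simp only [bil, Pi.add_apply, add_mul, Finset.sum_add_distrib]

theorem bil_add_right (x y y' : ι → R) : bil b x (y + y') = bil b x y + bil b x y' := by
  funext k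
  simp only [bil, Pi.add_apply, mul_add, add_mul, Finset.sum_add_distrib]

theorem bil_smul_left (c : R) (x y : ι → R) : bil b (c • x) y = c • bil b x y := by
  funext k
  simp only [bil, Pi.smul_apply, smul_eq_mul, Finset.mul_sum]
  exact Finset.sum_congr rfl fun i _ => Finset.sum_congr rfl fun j _ => by ring

theorem bil_smul_right (c : R) (x y : ι → R) : bil b x (c • y) = c • bil b x y := by
  funext k
  simp only [bil, Pi.smul_apply, smul_eq_mul, Finset.mul_sum]
  exact Finset.sum_congr rfl fun i _ => Finset.sum_congr rfl fun j _ => by ring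

theorem bil_zero_left (y : ι → R) : bil b 0 y = 0 := by
  funext k
  simp [bil]

theorem bil_zero_right (x : ι → R) : bil b x 0 = 0 := by
  funext k
  simp [bil]

theorem bil_cst (K : Type*) [CommRing K] [CharP K 2] (x y : ι → ZMod 2) :
    bil b (cst K x) (cst K y) = cst K (bil b x y) := by
  funext k
  simp only [bil, cst, map_sum, map_mul, map_intCast]

end bil

theorem cst_add (K : Type*) [CommRing K] [CharP K 2] {ι : Type*} (x y : ι → ZMod 2) :
    cst K (x + y) = cst K x + cst K y := by
  funext i
  simp only [cst, Pi.add_apply, map_add]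

theorem xm : S_XM.{u, v, w} := by
  intro K _ _ A _ _ G _ ι₁ ι₂ κ _ _ _ B c
  have hX : ∀ g, Xl B c (B.b g) = cst K (c.ξ g) := fun g => Module.Basis.constr_basis _ _ _ _
  have hP : ∀ g, Pl B c (B.b g) = cst K (c.ψ g) := fun g => Module.Basis.constr_basis _ _ _ _
  -- on the group
  have base : ∀ g h, (Xl B c (B.b g * B.b h) = B.aug (B.b g) • Xl B c (B.b h) +
        B.aug (B.b h) • Xl B c (B.b g)) ∧
      Pl B c (B.b g * B.b h) = B.aug (B.b g) • Pl B c (B.b h) + B.aug (B.b h) • Pl B c (B.b g) +
        bil c.b (Xl B c (B.b g)) (Xl B c (B.b h)) := by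
    intro g h
    rw [← B.mul, hX, hX, hX, hP, hP, hP, GBasis.aug_b, GBasis.aug_b, one_smul, one_smul, one_smul,
      one_smul, c.ξ_mul, c.ψ_mul, cst_add, cst_add, cst_add, bil_cst]
    exact ⟨add_comm _ _, by rw [add_comm (cst K (c.ψ g))]⟩
  have hspan : ∀ a : A, a ∈ Submodule.span K (Set.range B.b) := fun a => B.b.mem_span a
  -- first variable on the group
  have step : ∀ g (a' : A), (Xl B c (B.b g * a') = B.aug (B.b g) • Xl B c a' +
        B.aug a' • Xl B c (B.b g)) ∧
      Pl B c (B.b g * a') = B.aug (B.b g) • Pl B c a' + B.aug a' • Pl B c (B.b g) +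
        bil c.b (Xl B c (B.b g)) (Xl B c a') := by
    intro g a'
    induction hspan a' using Submodule.span_induction with
    | mem x hx =>
      obtain ⟨h, rfl⟩ := hx
      exact base g h
    | zero =>
      simp only [mul_zero, map_zero, smul_zero, zero_smul, add_zero, bil_zero_right, and_self]
    | add x y _ _ hx hy =>
      obtain ⟨h1, h2⟩ := hx
      obtain ⟨h3, h4⟩ := hy
      constructor
      · rw [mul_add, map_add, h1, h3, map_add, map_add, smul_add, add_smul]
        abel
      · rw [mul_add, map_add, h2, h4, map_add, map_add, map_add, smul_add, add_smul, bil_add_right]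
        abel
    | smul k x _ hx =>
      obtain ⟨h1, h2⟩ := hx
      constructor
      · rw [mul_smul_comm, map_smul, h1, map_smul, map_smul, smul_add, smul_smul, smul_smul, smul_smul,
          smul_eq_mul, mul_comm k (B.aug (B.b g))]
      · rw [mul_smul_comm, map_smul, h2, map_smul, map_smul, map_smul, smul_add, smul_add, smul_smul,
          smul_smul, smul_smul, smul_eq_mul, mul_comm k (B.aug (B.b g)), bil_smul_right]
  intro a a'
  induction hspan a using Submodule.span_induction with
  | mem x hx =>
    obtain ⟨h, rfl⟩ := hx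
    exact step h a'
  | zero =>
    simp only [zero_mul, map_zero, smul_zero, zero_smul, add_zero, bil_zero_left, and_self]
  | add x y _ _ hx hy =>
    obtain ⟨h1, h2⟩ := hx
    obtain ⟨h3, h4⟩ := hy
    constructor
    · rw [add_mul, map_add, h1, h3, map_add, map_add, smul_add, add_smul]
      abel
    · rw [add_mul, map_add, h2, h4, map_add, map_add, map_add, smul_add, add_smul, bil_add_left]
      abel
  | smul k x _ hx =>
    obtain ⟨h1, h2⟩ := hx
    constructor
    · rw [smul_mul_assoc, map_smul, h1, map_smul, map_smul, smul_add, smul_smul, smul_smul, smul_smul,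
        smul_eq_mul, mul_comm k (B.aug a')]
    · rw [smul_mul_assoc, map_smul, h2, map_smul, map_smul, map_smul, smul_add, smul_add, smul_smul,
        smul_smul, smul_smul, smul_eq_mul, mul_comm k (B.aug a'), bil_smul_left]

end Q251.MI2
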